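import Pool.Agent.W257.CStm

/-!
ESG-C1: the resolvent polynomial of two split monic polynomials (`S_sym`), from the fundamental
theorem on symmetric polynomials applied twice.
-/

open Polynomial Finset

namespace Pool.Agent.W625.ESG

open Pool.Agent.H322R2 Pool.Agent.W257

lemma esymm_val {S : Type} [CommRing S] {m : ℕ} (φ : Fin m → S) (P : S[X])
    (hP : P = ∏ i, (X - C (φ i))) (i : Fin m) :
    MvPolynomial.aeval (R := ℤ) φ (MvPolynomial.esymm (Fin m) ℤ (i + 1)) =
      (-1) ^ (i.1 + 1) * P.coeff (m - (i.1 + 1)) := by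
  rw [MvPolynomial.aeval_esymm_eq_multiset_esymm]
  have h := Multiset.prod_X_sub_C_coeff (Finset.univ.val.map φ) (k := m - (i.1 + 1)) (by simp)
  have h2 : ((Finset.univ.val.map φ).map (fun t => X - C t)).prod = P := by
    rw [hP, Finset.prod_eq_multiset_prod, Multiset.map_map]
    rfl
  rw [h2] at h
  rw [h]
  have h3 : Multiset.card (Finset.univ.val.map φ) - (m - (i.1 + 1)) = i.1 + 1 := by
    simp
    omega
  rw [h3, ← mul_assoc, ← mul_pow]
  simp

lemma symL {R : Type} [CommRing R] (m : ℕ) (p : MvPolynomial (Fin m) R) (hp : p.IsSymmetric)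
    (f : R[X]) :
    ∃ c : R, ∀ (S : Type) [CommRing S] (ψ : R →+* S) (φ : Fin m → S),
      f.map ψ = ∏ i, (X - C (φ i)) → ψ c = MvPolynomial.eval₂ ψ φ p := by
  obtain ⟨q, hq⟩ := (MvPolynomial.esymmAlgEquiv (σ := Fin m) R (n := m) (by simp)).surjective
    ⟨p, hp⟩
  have hq' : MvPolynomial.aeval (fun i : Fin m ↦ MvPolynomial.esymm (Fin m) R (i + 1)) q = p := by
    have := congrArg Subtype.val hq
    have h2 := MvPolynomial.esymmAlgHom_apply (σ := Fin m) (R := R) (n := m) q
    rw [← h2]
    exact this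
  refine ⟨MvPolynomial.eval (fun i : Fin m => (-1) ^ (i.1 + 1) * f.coeff (m - (i.1 + 1))) q, ?_⟩
  intro S _ ψ φ h
  rw [← hq']
  have h1 : ψ (MvPolynomial.eval (fun i : Fin m => (-1) ^ (i.1 + 1) * f.coeff (m - (i.1 + 1))) q)
      = MvPolynomial.eval₂ ψ (fun i : Fin m => (-1) ^ (i.1 + 1) * ψ (f.coeff (m - (i.1 + 1)))) q := by
    rw [MvPolynomial.map_eval ψ, MvPolynomial.eval_map]
    congr 1
    ext i
    simp
  rw [h1, MvPolynomial.aeval_def, ← MvPolynomial.coe_eval₂Hom ψ φ, MvPolynomial.hom_eval₂]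
  have h2 : (MvPolynomial.eval₂Hom ψ φ).comp (algebraMap R (MvPolynomial (Fin m) R)) = ψ := by
    ext r
    simp [MvPolynomial.algebraMap_eq]
  rw [h2]
  congr 1
  ext i
  have h3 := esymm_val φ (f.map ψ) h i
  rw [Polynomial.coeff_map] at h3
  simp only [MvPolynomial.coe_eval₂Hom]
  rw [← h3]
  simp only [MvPolynomial.esymm, map_sum, map_prod, MvPolynomial.aeval_X, MvPolynomial.eval₂_sum,
    MvPolynomial.eval₂_prod, MvPolynomial.eval₂_X]

/-- polynomial version -/
lemma symP {R : Type} [CommRing R] (m : ℕ) (P : (MvPolynomial (Fin m) R)[X])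
    (hp : ∀ j, (P.coeff j).IsSymmetric) (hP : P.Monic) (f : R[X]) :
    ∃ F : R[X], (F = X ^ P.natDegree + ∑ j ∈ range P.natDegree, C (F.coeff j) * X ^ j) ∧
      ∀ (S : Type) [CommRing S] (ψ : R →+* S) (φ : Fin m → S),
      f.map ψ = ∏ i, (X - C (φ i)) → F.map ψ = P.map (MvPolynomial.eval₂Hom ψ φ) := by
  choose c hc using fun j => symL m (P.coeff j) (hp j) f
  have hco : ∀ j < P.natDegree, (X ^ P.natDegree + ∑ j ∈ range P.natDegree, C (c j) * X ^ j).coeff j
      = c j := by
    intro j hj
    simp [Polynomial.coeff_X_pow, Polynomial.coeff_C_mul, hj.ne]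
    intro h
    omega
  refine ⟨X ^ P.natDegree + ∑ j ∈ range P.natDegree, C (c j) * X ^ j, ?_, ?_⟩
  · congr 1
    apply Finset.sum_congr rfl
    intro j hj
    rw [hco j (Finset.mem_range.1 hj)]
  · intro S _ ψ φ h
    conv_rhs => rw [hP.as_sum]
    rw [Polynomial.map_add, Polynomial.map_add, Polynomial.map_pow, Polynomial.map_pow, map_X, map_X,
      Polynomial.map_sum, Polynomial.map_sum]
    congr 1
    apply Finset.sum_congr rfl
    intro j _
    rw [Polynomial.map_mul, Polynomial.map_mul, map_C, map_C, Polynomial.map_pow, Polynomial.map_pow,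
      map_X, map_X, hc j S ψ φ h]
    rfl


lemma monic_of_form {R : Type} [CommRing R] [Nontrivial R] (F : R[X]) (N : ℕ)
    (h : F = X ^ N + ∑ j ∈ range N, C (F.coeff j) * X ^ j) : F.Monic ∧ F.natDegree = N := by
  have hd : (∑ j ∈ range N, C (F.coeff j) * X ^ j).degree < (N : WithBot ℕ) := by
    rw [Polynomial.degree_lt_iff_coeff_zero]
    intro k hk
    rw [Polynomial.finsetSum_coeff]
    apply Finset.sum_eq_zero
    intro j hj
    rw [Polynomial.coeff_C_mul_X_pow, if_neg]
    rintro rfl
    exact absurd (Finset.mem_range.1 hj) (by exact_mod_cast not_lt.2 hk)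
  have hm : F.Monic := by
    rw [h]
    exact Polynomial.monic_X_pow_add hd
  refine ⟨hm, ?_⟩
  rw [h]
  apply Polynomial.natDegree_eq_of_degree_eq_some
  rw [Polynomial.degree_add_eq_left_of_degree_lt]
  · simp
  · simpa using hd

/-- one step resolvent: with prescribed coefficients `b` -/
lemma step {U : Type} [CommRing U] [Nontrivial U] (m : ℕ) (b : Fin m → U) (f : U[X]) :
    ∃ F : U[X], F.Monic ∧ F.natDegree = m.factorial ∧
      ∀ (S : Type) [CommRing S] (ψ : U →+* S) (φ : Fin m → S),
      f.map ψ = ∏ i, (X - C (φ i)) →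
      F.map ψ = ∏ σ : Equiv.Perm (Fin m), (X - C (∑ i, ψ (b i) * φ (σ i))) := by
  let P : (MvPolynomial (Fin m) U)[X] := ∏ σ : Equiv.Perm (Fin m),
    (X - C (∑ i, MvPolynomial.C (b i) * MvPolynomial.X (σ i)))
  have hPm : P.Monic :=
    Polynomial.monic_prod_of_monic _ _ fun σ _ => Polynomial.monic_X_sub_C _
  have hPd : P.natDegree = m.factorial := by
    change (∏ σ : Equiv.Perm (Fin m),
      (X - C (∑ i, MvPolynomial.C (b i) * MvPolynomial.X (σ i))) :
        (MvPolynomial (Fin m) U)[X]).natDegree = _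
    rw [Polynomial.natDegree_prod_of_monic _ _ fun σ _ => Polynomial.monic_X_sub_C _]
    simp only [Polynomial.natDegree_X_sub_C]
    simp [Fintype.card_perm]
  have hPs : ∀ j, (P.coeff j).IsSymmetric := by
    intro j e
    have h : P.map (MvPolynomial.rename e :
        MvPolynomial (Fin m) U →ₐ[U] MvPolynomial (Fin m) U).toRingHom = P := by
      change (∏ σ : Equiv.Perm (Fin m),
        (X - C (∑ i, MvPolynomial.C (b i) * MvPolynomial.X (σ i))) :
          (MvPolynomial (Fin m) U)[X]).map _ = ∏ σ : Equiv.Perm (Fin m),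
        (X - C (∑ i, MvPolynomial.C (b i) * MvPolynomial.X (σ i)))
      rw [Polynomial.map_prod]
      conv_rhs => rw [← Equiv.prod_comp (Equiv.mulLeft e)]
      apply Finset.prod_congr rfl
      intro σ _
      rw [Polynomial.map_sub, Polynomial.map_X, Polynomial.map_C, map_sum]
      simp only [map_mul, AlgHom.toRingHom_eq_coe]
      simp only [RingHom.coe_coe, MvPolynomial.rename_C, MvPolynomial.rename_X]
      rfl
    conv_rhs => rw [← h, Polynomial.coeff_map]
    rfl
  obtain ⟨F, hF, hF'⟩ := symP m P hPs hPm f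
  rw [hPd] at hF
  obtain ⟨h1, h2⟩ := monic_of_form F _ hF
  refine ⟨F, h1, h2, ?_⟩
  intro S _ ψ φ h
  rw [hF' S ψ φ h]
  change (∏ σ : Equiv.Perm (Fin m),
        (X - C (∑ i, MvPolynomial.C (b i) * MvPolynomial.X (σ i))) :
          (MvPolynomial (Fin m) U)[X]).map _ = _
  rw [Polynomial.map_prod]
  apply Finset.prod_congr rfl
  intro σ _
  rw [Polynomial.map_sub, Polynomial.map_X, Polynomial.map_C, map_sum]
  simp only [map_mul, MvPolynomial.coe_eval₂Hom, MvPolynomial.eval₂_C, MvPolynomial.eval₂_X]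

lemma exists_split {L : Type} [Field L] [IsAlgClosed L] (f : L[X]) (m : ℕ) (hf : f.Monic)
    (hm : f.natDegree = m) : ∃ φ : Fin m → L, f = ∏ i, (X - C (φ i)) := by
  have h1 := (IsAlgClosed.splits f).eq_prod_roots_of_monic hf
  have h2 : Multiset.card f.roots = m := by
    rw [← hm]
    exact ((IsAlgClosed.splits f).natDegree_eq_card_roots).symm
  have h3 : f.roots.toList.length = m := by simp [h2]
  subst h3
  refine ⟨fun i => f.roots.toList.get i, ?_⟩
  conv_lhs => rw [h1]
  rw [← List.prod_ofFn]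
  have : List.ofFn (fun i => (X - C (f.roots.toList.get i) : L[X])) =
      f.roots.toList.map (fun a => X - C a) := by
    conv_rhs => rw [← List.ofFn_get f.roots.toList]
    rw [List.map_ofFn]
    rfl
  rw [this]
  conv_lhs => rw [← Multiset.coe_toList f.roots]
  rw [Multiset.map_coe, Multiset.prod_coe]

theorem main : S_sym := by
  intro m g f hg hgm hf hfm
  obtain ⟨F₁, hmon, hdeg, hF₁'⟩ := step m (fun i => (MvPolynomial.X i : MvPolynomial (Fin m) ℤ[X]))
    (f.map MvPolynomial.C)
  have hsym : ∀ j, (F₁.coeff j).IsSymmetric := by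
    intro j e
    let L := AlgebraicClosure (FractionRing ℤ[X])
    let ι : ℤ[X] →+* L :=
      (algebraMap (FractionRing ℤ[X]) L).comp (algebraMap ℤ[X] (FractionRing ℤ[X]))
    have hι : Function.Injective ι := by
      have h1 : Function.Injective (algebraMap (FractionRing ℤ[X]) L) :=
        RingHom.injective (algebraMap (FractionRing ℤ[X]) L)
      exact h1.comp (IsFractionRing.injective ℤ[X] (FractionRing ℤ[X]))
    obtain ⟨φ, hφ⟩ := exists_split (f.map ι) m (hf.map ι) (by
      rw [Polynomial.natDegree_map_eq_of_injective hι, hfm])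
    have h1 := hF₁' (MvPolynomial (Fin m) L) (MvPolynomial.map ι) (fun i => MvPolynomial.C (φ i)) (by
      have h2 := congrArg (Polynomial.map (MvPolynomial.C : L →+* MvPolynomial (Fin m) L)) hφ
      rw [Polynomial.map_map, Polynomial.map_prod] at h2
      rw [Polynomial.map_map]
      have h3 : (MvPolynomial.map ι).comp (MvPolynomial.C (σ := Fin m)) =
          (MvPolynomial.C (σ := Fin m)).comp ι := by
        apply RingHom.ext
        intro r
        simp
      rw [h3, h2]
      simp)
    apply MvPolynomial.map_injective ι hι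
    rw [MvPolynomial.map_rename]
    have h4 : MvPolynomial.map ι (F₁.coeff j) = (F₁.map (MvPolynomial.map ι)).coeff j := by
      rw [Polynomial.coeff_map]
    rw [h4, h1]
    have h5 : (∏ σ : Equiv.Perm (Fin m), (X - C (∑ i, MvPolynomial.map ι (MvPolynomial.X i) *
        MvPolynomial.C (φ (σ i)))) : (MvPolynomial (Fin m) L)[X]).map
        (MvPolynomial.rename e : MvPolynomial (Fin m) L →ₐ[L] MvPolynomial (Fin m) L).toRingHom =
        ∏ σ : Equiv.Perm (Fin m), (X - C (∑ i, MvPolynomial.map ι (MvPolynomial.X i) *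
        MvPolynomial.C (φ (σ i)))) := by
      rw [Polynomial.map_prod]
      rw [← Equiv.prod_comp (Equiv.mulRight e)]
      apply Finset.prod_congr rfl
      intro σ _
      rw [← Equiv.sum_comp e (fun i => MvPolynomial.map ι (MvPolynomial.X i) *
        MvPolynomial.C (φ (σ i)))]
      rw [Polynomial.map_sub, Polynomial.map_X, Polynomial.map_C, map_sum]
      simp only [map_mul, AlgHom.toRingHom_eq_coe]
      simp only [RingHom.coe_coe, MvPolynomial.rename_C, MvPolynomial.rename_X,
        MvPolynomial.map_X]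
      rfl
    conv_rhs => rw [← h5, Polynomial.coeff_map]
    rfl
  obtain ⟨F, hF, hF'⟩ := symP m F₁ hsym hmon (g.map C)
  rw [hdeg] at hF
  obtain ⟨hFm, hFd⟩ := monic_of_form F _ hF
  refine ⟨F, hFm, hFd, ?_⟩
  intro S _ x β φ hβ hφ
  rw [hF' S (evf x) β (by
    rw [Polynomial.map_map, ← hβ]
    congr 1
    ext r
    simp)]
  rw [hF₁' S _ φ (by
    rw [Polynomial.map_map, ← hφ]
    congr 1
    apply RingHom.ext
    intro r
    simp)]
  simp

end Pool.Agent.W625.ESG
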